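import Mathlib
import Pool.Agent.V11161.BG.GoldFinal

set_option autoImplicit false

/-!
# MP_61161c_nt: sums of two distinct odd primes in a translate of a Bohr set, or almost all
differences

For all `k` and `η > 0` there are `W`, a rank `r`, `C`, `X₀`, a radius `ρ > 0` and `b > 0` such that
for every `X ≥ X₀` and every large even `m` at least one of the following holds.

* (differences) For at least `(1 - η) ⌊X / 100⌋` of the numbers `1 ≤ h ≤ X / 100` there are at least
  `m / (log m) ^ C` primes `p ≤ 2 m` such that `p + W h` is a prime.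
* (sums) There are a set `Γ` of at most `r` frequencies modulo `2 X + 1` and a residue `x₀` such
  that the Bohr set `B` of the residues `h` with `|exp (2 π i γ h / (2 X + 1)) - 1| ≤ ρ` for all
  `γ ∈ Γ` has at least `b X` elements, and for at least `(1 - η) |B| ^ (2 k + 1)` of the
  `(s, u, t) ∈ B × B ^ k × B ^ k` the even number `n = m + W ((x₀ + s) mod (2 X + 1))` is a sum
  `n = p + q` of two distinct odd primes in at least `m / (log m) ^ C` ways for which moreover all
  the numbers `p + W u_i` and `q + W t_j` are primes (here `u_i`, `t_j` stand for the residues of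
  least absolute value).

So for `k = 0`, if the multiples of `W` are not almost always differences of two primes near `m`,
then almost all the numbers `m + W x`, `x` in a translate of a Bohr set of bounded rank and radius,
are sums of two distinct odd primes.

Proof. The theorem on clusters (`Pool.Agent.V11161.CL`) is applied to the forms `n + W x` and
`m + W x - n`, `x ≤ X`. It gives sets `U₁` and `U₂` of `x ≤ X`, together more than `5 / 9 - ε` of
`X`, such that almost all the tuples of forms in the union are simultaneously prime. If one of them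
is small, then the other has more than half of all elements, and almost all `h ≤ X / 100` are
differences of good pairs. If both are large, the energy increment argument, for the two sets at the
same time, gives a Bohr set `B` and a translate `x₀ + B` of it in which almost all `x₀ + s` have
many representations `a + a'`, `a ∈ U₁`, `a' ∈ U₂`, with `a + u_i ∈ U₁` and `a' + t_j ∈ U₂`.
-/

namespace Pool.Agent.Results.MP_61161c_nt.BohrSetsOrDifferences

open Filter

/-- the Bohr set of the frequencies `Γ`, of radius `ρ`, modulo `M` -/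
def bohrMod {M : ℕ} [NeZero M] (Γ : Finset (ZMod M)) (ρ : ℝ) : Set (ZMod M) :=
  {h : ZMod M | ∀ r ∈ Γ, ‖(ZMod.stdAddChar (r * h) : ℂ) - 1‖ ≤ ρ}

/-- the odd primes `p` for which `q = m + W (x₀ + s) - p` is an odd prime other than `p`, all the
`p + W u_i` are primes and all the `q + W t_j` are primes -/
def oddPairs {k M : ℕ} (m W : ℕ) (x₀ s : ZMod M) (u t : Fin k → ZMod M) : Set ℕ :=
  {p : ℕ | p.Prime ∧ p ≠ 2 ∧ (∀ i, ∃ p' : ℕ, p'.Prime ∧ (p' : ℤ) = p + W * (u i).valMinAbs) ∧
    ∃ q : ℕ, q.Prime ∧ q ≠ 2 ∧ p ≠ q ∧ p + q = m + W * (x₀ + s).val ∧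
      ∀ j, ∃ q' : ℕ, q'.Prime ∧ (q' : ℤ) = q + W * (t j).valMinAbs}

theorem result (k : ℕ) (η : ℝ) (hη : 0 < η) :
    ∃ (W r C X₀ : ℕ) (ρ b : ℝ), 0 < W ∧ 0 < ρ ∧ 0 < b ∧ ∀ X : ℕ, X₀ ≤ X →
      ∀ᶠ m : ℕ in atTop, Even m →
      ((1 - η) * ((X / 100 : ℕ) : ℝ) ≤ ({h : ℕ | 1 ≤ h ∧ h ≤ X / 100 ∧
        (m : ℝ) / (Real.log m) ^ C ≤
          ({p : ℕ | p ≤ 2 * m ∧ p.Prime ∧ (p + W * h).Prime}.ncard : ℝ)}.ncard : ℝ)) ∨
      ∃ (Γ : Finset (ZMod (2 * X + 1))) (x₀ : ZMod (2 * X + 1)), Γ.card ≤ r ∧
        b * X ≤ ((bohrMod Γ ρ).ncard : ℝ) ∧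
        (1 - η) * ((bohrMod Γ ρ).ncard : ℝ) ^ (2 * k + 1) ≤
          ({x : ZMod (2 * X + 1) × (Fin k → ZMod (2 * X + 1)) × (Fin k → ZMod (2 * X + 1)) |
            x.1 ∈ bohrMod Γ ρ ∧ (∀ i, x.2.1 i ∈ bohrMod Γ ρ) ∧ (∀ j, x.2.2 j ∈ bohrMod Γ ρ) ∧
            (m : ℝ) / (Real.log m) ^ C ≤
              ((oddPairs m W x₀ x.1 x.2.1 x.2.2).ncard : ℝ)}.ncard : ℝ) :=
  Pool.Agent.V11161.BG.goldFinal k η hη

end Pool.Agent.Results.MP_61161c_nt.BohrSetsOrDifferences
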