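import Pool.Agent.Helper29.BE.Iter
import Pool.Agent.TH110.Zig.Primes

/-!
# Several even numbers with a common tiny prime summand from a given set

Let `A` be ANY finite set of odd primes `≤ Y`, and let `H ≥ Y ^ 17` with `(log H) ^ r ≤ |A|`; so `A` may
be as small as a power of `log H`. Then for at least `c H ^ r / (log k) ^ r` of the `r`-tuples
`(m_1, ..., m_r)` of even numbers up to `H` there is ONE prime `p` in `A` such that every `m_j` is the sum
of `p` and of a prime `q_j ≠ p`. Here `k ≥ 3` is any number with `2 Y ≤ e ^ k |A|`, so that `k` is of the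
order `log (Y / |A|)`. If `A` consists of all odd primes up to `M`, where `M` may be as small as
`(log H) ^ (r + 1)`, the number of the tuples is at least `c H ^ r / (log log log M) ^ r`.

The proof is the second moment method, with the sharp form of the upper bound sieve for prime pairs
and the moments of the singular factor over differences of the starting library
(`Pool.Agent.H197R2.PG`), in a form for vectors (`Pool.Agent.Helper29.BE.main2`).
-/

set_option autoImplicit false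

open Finset Filter Topology

namespace Pool.Agent.Results.MP_61161c_nt.CommonTinyPrimes

/-- The `r`-tuples of even numbers `1 ≤ m j ≤ H` for which there is one `p` in `A` such that every `m j`
is the sum of `p` and of an odd prime different from `p`. -/
def common (r H : ℕ) (A : Set ℕ) : Set (Fin r → ℕ) :=
  {m | (∀ j, 1 ≤ m j ∧ m j ≤ H ∧ Even (m j)) ∧ ∃ p ∈ A, ∀ j, ∃ q : ℕ, q.Prime ∧ q ≠ 2 ∧ p ≠ q ∧
    p + q = m j}

lemma common_finite (r H : ℕ) (A : Set ℕ) : (common r H A).Finite := by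
  apply (Finset.finite_toSet (Fintype.piFinset (fun _ : Fin r => Icc 1 H))).subset
  rintro h ⟨h2, -⟩
  rw [mem_coe, Fintype.mem_piFinset]
  intro j
  rw [mem_Icc]
  exact ⟨(h2 j).1, (h2 j).2.1⟩

lemma common_mono {r H : ℕ} {A B : Set ℕ} (h : A ⊆ B) : common r H A ⊆ common r H B := by
  rintro t ⟨h1, p, hp, h2⟩
  exact ⟨h1, p, h hp, h2⟩

open Pool.Agent.Helper29.BE in
lemma Sh2_sub {r H : ℕ} {A : Finset ℕ} (hA : ∀ p ∈ A, Odd p) :
    (Sh2 H A (fun (_ : Fin r) t => t) (fun _ => false) : Set (Fin r → ℕ)) ⊆ common r H A := by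
  intro h hh
  rw [mem_coe] at hh
  unfold Sh2 at hh
  rw [mem_filter, Fintype.mem_piFinset] at hh
  obtain ⟨h2, p, hp, h3⟩ := hh
  have h2' : ∀ j, 1 ≤ h j ∧ h j ≤ H ∧ Even (h j) := fun j => by
    have h4 := h2 j
    rw [mem_filter, mem_Icc] at h4
    exact ⟨h4.1.1, h4.1.2, h4.2⟩
  refine ⟨h2', p, mem_coe.2 hp, fun j => ?_⟩
  have h4 := h3 j
  rw [if_neg (by simp)] at h4
  obtain ⟨h5, h6⟩ := h4
  change 2 * p < h j at h5
  change (h j - p).Prime at h6
  obtain ⟨a, ha⟩ := hA p hp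
  obtain ⟨b, hb⟩ := (h2' j).2.2
  exact ⟨h j - p, h6, by omega, by omega, by omega⟩

open Pool.Agent.Helper29.BE in
theorem general (r : ℕ) (hr : 1 ≤ r) : ∃ c : ℝ, 0 < c ∧ ∃ Y₀ : ℕ, ∀ Y : ℕ, Y₀ ≤ Y →
    ∀ A : Finset ℕ, (∀ p ∈ A, p.Prime ∧ p ≠ 2 ∧ p ≤ Y) → ∀ k : ℕ, 3 ≤ k →
    2 * (Y : ℝ) ≤ Real.exp k * #A → ∀ H : ℕ, Y ^ 17 ≤ H → Real.log H ^ r ≤ #A →
    c * H ^ r / Real.log k ^ r ≤ ((common r H A).ncard : ℝ) := by
  classical
  obtain ⟨c, hc, Y₀, h⟩ := main2 r 1 hr
  refine ⟨c, hc, Y₀, fun Y hY A hA k hk hYA H hH hHA => ?_⟩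
  have hodd : ∀ p ∈ A, Odd p := fun p hp => (hA p hp).1.odd_of_ne_two (hA p hp).2.1
  have h1 := h Y hY H hH k A (fun _ t => t) (fun _ => false) hk (fun _ => fun a _ b _ hab => hab)
    (fun _ t ht => ⟨hodd t ht, (hA t ht).2.2⟩) hHA (by
      rw [Nat.cast_one, one_mul]
      exact hYA)
  refine h1.trans ?_
  apply Nat.cast_le.2
  rw [← Set.ncard_coe_finset]
  exact Set.ncard_le_ncard (Sh2_sub hodd) (common_finite r H A)

/-- the odd primes up to `M` -/
lemma primes_many : ∀ᶠ M : ℕ in atTop, (M : ℝ) / (2 * Real.log M) ≤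
    (#((Icc 3 M).filter Nat.Prime) : ℝ) := by
  have h1 := Pool.Agent.TH110.Zig.pnt_window 1 1 (1 / 4) (by norm_num) (by norm_num)
  have h5 : ∀ᶠ M : ℕ in atTop, Real.log M ≤ (1 / 4) * M := by
    have h6 := Real.isLittleO_log_id_atTop.bound (by norm_num : (0 : ℝ) < 1 / 4)
    filter_upwards [tendsto_natCast_atTop_atTop.eventually h6, eventually_ge_atTop 1] with M h7 h8
    have h9 : (0 : ℝ) ≤ Real.log M := Real.log_natCast_nonneg M
    rw [Real.norm_of_nonneg h9] at h7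
    simpa using h7
  filter_upwards [tendsto_natCast_atTop_atTop.eventually h1, h5, eventually_ge_atTop 3] with M h2 h6 hM
  have hM3 : (3 : ℝ) ≤ M := by exact_mod_cast hM
  have hlog : 0 < Real.log (M : ℝ) := Real.log_pos (by linarith)
  have a1 := h2 (M : ℝ) (by linarith) (by linarith)
  rw [Nat.floor_natCast] at a1
  have b1 := (abs_le.1 a1).1
  have h3 : Nat.primeCounting M ≤ #((Icc 3 M).filter Nat.Prime) + 1 := by
    rw [Nat.primeCounting, Nat.primeCounting', Nat.count_eq_card_filter_range]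
    refine le_trans (card_le_card (?_ : _ ⊆ insert 2 ((Icc 3 M).filter Nat.Prime)))
      (card_insert_le _ _)
    intro p hp
    rw [mem_filter, mem_range] at hp
    rw [mem_insert, mem_filter, mem_Icc]
    have := hp.2.two_le
    by_cases h : p = 2
    · exact Or.inl h
    · exact Or.inr ⟨⟨by omega, by omega⟩, hp.2⟩
  have h4 : (Nat.primeCounting M : ℝ) ≤ #((Icc 3 M).filter Nat.Prime) + 1 := by exact_mod_cast h3
  have e1 : (M : ℝ) / (2 * Real.log M) = (M / Real.log M) / 2 := by field_simp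
  have h7 : 1 ≤ (M / Real.log M) / 4 := by
    rw [le_div_iff₀ (by norm_num), le_div_iff₀ hlog]
    linarith
  rw [e1]
  linarith

/-- **Common tiny prime summands.** (1) For every `r ≥ 1` there are `c > 0` and `Y₀` such that for all
`Y ≥ Y₀`, every set `A` of odd primes `≤ Y`, every `k ≥ 3` with `2 Y ≤ e ^ k |A|` and every
`H ≥ Y ^ 17` with `(log H) ^ r ≤ |A|`: for at least `c H ^ r / (log k) ^ r` of the `r`-tuples
`(m_1, ..., m_r)` of even numbers up to `H` there is one `p` in `A` such that each `m_j` is the sum of `p`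
and of an odd prime different from `p`. (2) For every `r ≥ 1` there are `c > 0` and `M₀` such that for
all `M ≥ M₀` and every `H ≥ M ^ 17` with `(log H) ^ r ≤ M / (2 log M)` this holds for at least
`c H ^ r / (log log log M) ^ r` of the `r`-tuples of even numbers up to `H`, with an odd prime
`p ≤ M`. -/
theorem result (r : ℕ) (hr : 1 ≤ r) :
    (∃ c : ℝ, 0 < c ∧ ∃ Y₀ : ℕ, ∀ Y : ℕ, Y₀ ≤ Y →
      ∀ A : Finset ℕ, (∀ p ∈ A, p.Prime ∧ p ≠ 2 ∧ p ≤ Y) → ∀ k : ℕ, 3 ≤ k →
      2 * (Y : ℝ) ≤ Real.exp k * #A → ∀ H : ℕ, Y ^ 17 ≤ H → Real.log H ^ r ≤ #A →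
      c * H ^ r / Real.log k ^ r ≤ ((common r H A).ncard : ℝ)) ∧
    ∃ c : ℝ, 0 < c ∧ ∃ M₀ : ℕ, ∀ M : ℕ, M₀ ≤ M → ∀ H : ℕ, M ^ 17 ≤ H →
      Real.log H ^ r ≤ M / (2 * Real.log M) →
      c * H ^ r / Real.log (Real.log (Real.log M)) ^ r ≤
        ((common r H {p | p.Prime ∧ p ≠ 2 ∧ p ≤ M}).ncard : ℝ) := by
  classical
  refine ⟨general r hr, ?_⟩
  obtain ⟨c, hc, n₁, h⟩ := Pool.Agent.Helper29.BE.shiftsD2 r 2 hr
  obtain ⟨n₂, hn₂⟩ := eventually_atTop.1 (primes_many.and
    (Pool.Agent.Helper29.BE.tLog.eventually_ge_atTop 4))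
  refine ⟨c, hc, n₁ + n₂ + 3, fun M hM H hH hHM => ?_⟩
  obtain ⟨g1, g2⟩ := hn₂ M (by omega)
  set A : Finset ℕ := (Icc 3 M).filter Nat.Prime with hA
  have hA1 : ∀ p ∈ A, p.Prime ∧ p ≠ 2 ∧ p ≤ M := by
    intro p hp
    rw [hA, mem_filter, mem_Icc] at hp
    exact ⟨hp.2, by omega, hp.1.2⟩
  have hodd : ∀ p ∈ A, Odd p := fun p hp => (hA1 p hp).1.odd_of_ne_two (hA1 p hp).2.1
  have h1 := h M (by omega) M H le_rfl hH A (fun _ t => t) (fun _ => false)
    (fun _ => fun a _ b _ hab => hab) (fun _ t ht => ⟨hodd t ht, (hA1 t ht).2.2⟩)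
    (hHM.trans g1) (by
      have h2 : 2 * (M : ℝ) = 4 * Real.log M * (M / (2 * Real.log M)) := by
        have : Real.log (M : ℝ) ≠ 0 := by linarith
        field_simp
        ring
      rw [h2]
      have h3 : 4 * Real.log (M : ℝ) ≤ Real.log M ^ 2 := by nlinarith
      exact mul_le_mul h3 g1 (by positivity) (by positivity))
  refine h1.trans ?_
  apply Nat.cast_le.2
  rw [← Set.ncard_coe_finset]
  apply Set.ncard_le_ncard _ (common_finite r H _)
  refine (Sh2_sub hodd).trans (common_mono ?_)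
  intro p hp
  exact hA1 p (mem_coe.1 hp)

end Pool.Agent.Results.MP_61161c_nt.CommonTinyPrimes
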