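import Pool.Agent.V11237.LP.GB

set_option autoImplicit false

/-!
# Every large even number as a sum of an odd prime and a larger almost prime: asymptotics and law

For every large even `n`: the number of the odd primes `p` with `p < n / 2` for which `n - p` has no
prime factor `≤ n ^ (1 / r)`, and the Poisson law, over these primes `p`, of the number of the `m` in
`(p, p + T]` with `m` and `n - m` both free of prime factors `≤ n ^ (1 / r)`.
-/

namespace Pool.Agent.Results.MP_61161c_nt.LawAfterPrimes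

open Finset
open Pool.Agent.V11237.LP.GB

/-- **Sums of an odd prime and a larger almost prime.** -/
theorem result (x₀ ε : ℝ) (hε : 0 < ε) (hε1 : ε ≤ 1) :
    ∃ r₀ : ℕ, 2 ≤ r₀ ∧ ∀ r : ℕ, r₀ ≤ r → ∃ n₀ : ℕ, ∀ n : ℕ, n₀ ≤ n → Even n →
      (∀ p ∈ P n r 0 (n / 2 - 1), p ≠ 2 ∧ p < n - p ∧ (n - p).primeFactorsList.length ≤ r ∧
        ∀ q : ℕ, q.Prime → q ∣ n - p → (n : ℝ) ^ (1 / (r : ℝ)) < q) ∧
      0 < V n r ∧
      |((P n r 0 (n / 2 - 1)).card : ℝ) * Real.log ((n / 2 - 1 : ℕ) : ℝ) -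
          ((n / 2 - 1 : ℕ) : ℝ) * (V n r / U n r)| ≤
        ε * (((n / 2 - 1 : ℕ) : ℝ) * (V n r / U n r)) ∧
      ∀ T : ℕ, T * V n r ≤ x₀ → ∀ S : Finset ℕ,
        |(((P n r 0 (n / 2 - 1)).filter (fun m => Next n r T m ∈ S)).card : ℝ) -
          (P n r 0 (n / 2 - 1)).card *
            ∑ j ∈ S, Real.exp (-(T * V n r)) * (T * V n r) ^ j / j.factorial| ≤
          ε * (P n r 0 (n / 2 - 1)).card := by
  classical
  obtain ⟨r0, hr0, h0⟩ := law (1 / 2) 1 (by norm_num) one_pos le_rfl x₀ ε hε hε1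
  refine ⟨r0, hr0, ?_⟩
  intro r hr
  obtain ⟨n0, hn0⟩ := h0 r hr
  refine ⟨max n0 (2 ^ r + 64), ?_⟩
  intro n hn hev
  have hn1 : n0 ≤ n := (le_max_left _ _).trans hn
  have hn2 : 2 ^ r + 64 ≤ n := (le_max_right _ _).trans hn
  have h2r : 1 ≤ 2 ^ r := Nat.one_le_two_pow
  have h64 : 64 ≤ n := by omega
  have hr2 : 2 ≤ r := hr0.trans hr
  have hr0' : (0 : ℝ) < r := by exact_mod_cast (by omega : 0 < r)
  obtain ⟨g1, g2, g3⟩ := hn0 n hn1 hev
  obtain ⟨g4, g5⟩ := g3 (n / 2 - 1) (by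
      have e1 : ((n / 2 - 1 : ℕ) : ℝ) = (n : ℝ) / 2 - 1 := by
        obtain ⟨k, hk⟩ := hev
        have : n / 2 - 1 + 1 + (n / 2 - 1 + 1) = n := by omega
        have h : (((n / 2 - 1 + 1 + (n / 2 - 1 + 1) : ℕ)) : ℝ) = n := by rw [this]
        push_cast at h
        linarith
      have hnr : (64 : ℝ) ≤ n := by exact_mod_cast h64
      rw [e1, ← Real.sqrt_eq_rpow]
      obtain ⟨s, hs⟩ : ∃ s, s = √(n : ℝ) := ⟨_, rfl⟩
      have hss : s * s = n := by rw [hs]; exact Real.mul_self_sqrt (by linarith)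
      have hs8 : 8 ≤ s := by
        rw [hs]
        apply Real.le_sqrt_of_sq_le
        linarith
      rw [← hs, ← hss]
      nlinarith) 0 (n / 2 - 1) (by rw [one_mul]) (by omega)
  refine ⟨?_, g2, g4, g5⟩
  intro p hp
  unfold P at hp
  rw [mem_filter, mem_Ioc] at hp
  obtain ⟨⟨h1, h2⟩, h3, h4⟩ := hp
  refine ⟨?_, by omega, g1 p (by omega) h4, ?_⟩
  · rintro rfl
    apply (h4 2 Nat.prime_two ?_).1 dvd_rfl
    have e1 : ((2 : ℝ) ^ (r : ℝ)) ^ (1 / (r : ℝ)) ≤ (n : ℝ) ^ (1 / (r : ℝ)) := by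
      apply Real.rpow_le_rpow (by positivity) _ (by positivity)
      rw [Real.rpow_natCast]
      exact_mod_cast (by omega : 2 ^ r ≤ n)
    rw [← Real.rpow_mul (by norm_num), mul_one_div_cancel hr0'.ne', Real.rpow_one] at e1
    exact_mod_cast e1
  · intro q hq hqd
    by_contra hcon
    rw [not_lt] at hcon
    apply (h4 q hq hcon).2
    have : ((n - p : ℕ) : ℤ) = n - p := Nat.cast_sub (by omega)
    rw [← this]
    exact_mod_cast hqd

end Pool.Agent.Results.MP_61161c_nt.LawAfterPrimes
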