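import Pool.Agent.V11249.NP.Gold

/-!
# Arithmetic progressions in the set of the representations as sums of two distinct odd primes

For all even numbers `M` and all windows `(A, A + N]` below `M / 2`, consider the `p` in the window such that `p`
and `M - p` are distinct odd primes. The number of these representations in the window
has the expected order of magnitude `N V` if and only if the number of the `k`-term arithmetic progressions with
differences up to `D` formed by them has the expected order of magnitude `N D V ^ k`, for all `D` between a power of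
`log N` and `N`; the constants depend only on `k`. The same holds for all sets of integers `n` such that `n` and
`M - n` have no prime factor `≤ N ^ κ` (Szemerédi's theorem relative to these sets, and its converse).
-/

set_option autoImplicit false

open Finset

namespace Pool.Agent.Results.MP_61161c_nt.ProgressionsOfRepresentations

/-- windows `(A, A + N]` below `M / 2`, `M` even -/
def Window (M A N : ℕ) : Prop := Even M ∧ 2 * (A + N) < M

/-- the `p` in `(A, A + N]` such that `p` and `M - p` are distinct odd primes -/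
def G (M A N : ℕ) : Finset ℕ :=
  (Ioc A (A + N)).filter (fun p => p.Prime ∧ (M - p).Prime ∧ p ≠ 2 ∧ M - p ≠ 2 ∧ p ≠ M - p)

/-- the sieve product over the primes `p ≤ N ^ κ`: the factor is `1 - 1 / p` for the primes `p` dividing `M` and
`1 - 2 / p` for the others -/
noncomputable def V (M : ℕ) (κ : ℝ) (N : ℕ) : ℝ :=
  (∏ p ∈ (Icc 1 ⌊(N : ℝ) ^ κ⌋₊).filter (fun p => p.Prime ∧ p ∣ M), (1 - 1 / (p : ℝ))) *
    ∏ p ∈ (Icc 1 ⌊(N : ℝ) ^ κ⌋₊).filter (fun p => p.Prime ∧ ¬ p ∣ M), (1 - 2 / (p : ℝ))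

/-- neither `n` nor `M - n` has a prime factor `≤ N ^ κ` -/
def Rough (M : ℕ) (κ : ℝ) (N n : ℕ) : Prop :=
  ∀ p : ℕ, p.Prime → p ∣ n * (M - n) → (N : ℝ) ^ κ < p

open Classical in
/-- The number of the progressions `n, n + d, …, n + (k - 1) d` in `S` with `1 ≤ d ≤ D`. -/
noncomputable def AP (k D : ℕ) (S : Finset ℕ) : ℕ :=
  ((S ×ˢ Icc 1 D).filter (fun q => ∀ j < k, q.1 + j * q.2 ∈ S)).card

theorem eqG (M A N : ℕ) (h : Window M A N) (h10 : 10 ≤ N) :
    G M A N = (Ioc A (A + N)).filter (fun p => p.Prime ∧ (M - p).Prime) := by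
  obtain ⟨⟨m, hm⟩, h2⟩ := h
  unfold G
  apply filter_congr
  intro p hp
  rw [mem_Ioc] at hp
  constructor
  · rintro ⟨a, b, -⟩
    exact ⟨a, b⟩
  · rintro ⟨a, b⟩
    refine ⟨a, b, ?_, by omega, by omega⟩
    rintro rfl
    rcases b.eq_two_or_odd with h3 | h3
    · omega
    · omega

/-- For every `k ≥ 1`, with constants which do not depend on the even number `M` and the window:
(1) for `κ > 0` a set `S` of integers `n` of the window with `n` and `M - n` free of prime factors `≤ N ^ κ`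
contains at most `C N D V ^ k` progressions of length `k` with differences at most `D`;
(2) it contains at least `c₀ N D V ^ k` of them if it has at least `δ N V` elements, and it has at least
`c₀ N V` elements if it contains at least `δ N D V ^ k` of them, for all `D` between `log ^ B N` and `N`;
(3), (4) the same for the set `G` (with `κ = 1/4` in `V`). -/
theorem result (k : ℕ) (hk : 1 ≤ k) :
    (∀ κ : ℝ, 0 < κ → ∃ C : ℝ, 0 < C ∧ ∃ B N₀ : ℕ, ∀ M N A D : ℕ, Window M A N →
      N₀ ≤ N → Real.log N ^ B ≤ D → ∀ S : Finset ℕ, S ⊆ Ioc A (A + N) → (∀ n ∈ S, Rough M κ N n) →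
        (AP k D S : ℝ) ≤ C * (N * D * V M κ N ^ k)) ∧
    (∀ κ δ : ℝ, 0 < κ → 0 < δ → ∃ c₀ : ℝ, 0 < c₀ ∧ ∃ B N₀ : ℕ, ∀ M N A D : ℕ, Window M A N →
      N₀ ≤ N → Real.log N ^ B ≤ D → D ≤ N → ∀ S : Finset ℕ, S ⊆ Ioc A (A + N) →
        (∀ n ∈ S, Rough M κ N n) →
        (δ * (N * V M κ N) ≤ S.card → c₀ * (N * D * V M κ N ^ k) ≤ AP k D S) ∧
        (δ * (N * D * V M κ N ^ k) ≤ AP k D S → c₀ * (N * V M κ N) ≤ S.card)) ∧
    (∃ C : ℝ, 0 < C ∧ ∃ B N₀ : ℕ, ∀ M N A D : ℕ, Window M A N → N₀ ≤ N → Real.log N ^ B ≤ D →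
      (AP k D (G M A N) : ℝ) ≤ C * (N * D * V M (1 / 4) N ^ k)) ∧
    (∀ δ : ℝ, 0 < δ → ∃ c₀ : ℝ, 0 < c₀ ∧ ∃ B N₀ : ℕ, ∀ M N A D : ℕ, Window M A N →
      N₀ ≤ N → Real.log N ^ B ≤ D → D ≤ N →
      (δ * (N * V M (1 / 4) N) ≤ (G M A N).card →
        c₀ * (N * D * V M (1 / 4) N ^ k) ≤ AP k D (G M A N)) ∧
      (δ * (N * D * V M (1 / 4) N ^ k) ≤ AP k D (G M A N) →
        c₀ * (N * V M (1 / 4) N) ≤ (G M A N).card)) := by
  exact Pool.Agent.V11249.NP.Gold.spec (Θ := ℕ) (fun M => M) Window G V Rough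
    (fun M A N h => ⟨h.1, by have := h.2; omega⟩) (fun M A N h h10 => eqG M A N h h10)
    (fun M κ N => Pool.Agent.V11249.NP.Gold.V_two M κ N) (fun M κ N n h => h) k hk

end Pool.Agent.Results.MP_61161c_nt.ProgressionsOfRepresentations
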